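import Pool.Agent.H17.SD.Targets

/-!
# MP_70ba79_ag: at a point of the curve some minor is not zero (board `sfg_modules`, row MNZ)
-/

set_option autoImplicit false

open MvPolynomial SC Pool.Agent.H27.LV
open Pool.Agent.H92.SF Pool.Agent.H3.SF Pool.Agent.H17.SD

namespace Pool.Agent.H94.SFG

/-- independent rows have a nonzero minor -/
theorem minor_ne {k σ : Type} [Field k] [Fintype σ] {n : ℕ} (v : Fin n → σ → k)
    (hv : LinearIndependent k v) :
    ∃ q : Fin n → σ, (Matrix.of fun i j => v i (q j)).det ≠ 0 := by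
  classical
  obtain ⟨w, hw⟩ : ∃ w : σ → Fin n → k, ∀ s i, w s i = v i s := ⟨fun s i => v i s, fun _ _ => rfl⟩
  have hW : Submodule.span k (Set.range w) = ⊤ := by
    by_contra hne
    obtain ⟨f, hf0, hf⟩ := Submodule.exists_le_ker_of_lt_top _ (lt_top_iff_ne_top.mpr hne)
    apply hf0
    have h1 : ∑ i, f (fun j => if i = j then 1 else 0) • v i = 0 := by
      funext s
      have h2 : f (w s) = 0 := hf (Submodule.subset_span ⟨s, rfl⟩)
      rw [LinearMap.pi_apply_eq_sum_univ f (w s)] at h2
      rw [Finset.sum_apply, Pi.zero_apply]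
      refine Eq.trans (Finset.sum_congr rfl fun i _ => ?_) h2
      rw [Pi.smul_apply, smul_eq_mul, smul_eq_mul, hw, mul_comm]
    have h3 := Fintype.linearIndependent_iff.1 hv _ h1
    refine LinearMap.ext fun y => ?_
    rw [LinearMap.pi_apply_eq_sum_univ f y, LinearMap.zero_apply]
    refine Finset.sum_eq_zero fun j _ => ?_
    rw [h3 j, smul_zero]
  obtain ⟨f, hf, -, hli⟩ := Submodule.exists_fun_fin_finrank_span_eq k (Set.range w)
  have hr : Module.finrank k (Submodule.span k (Set.range w)) = n := by
    rw [hW, finrank_top, Module.finrank_fin_fun]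
  choose s hs using hf
  refine ⟨fun i => s (Fin.cast hr.symm i), ?_⟩
  have h2 : LinearIndependent k (fun i : Fin n => f (Fin.cast hr.symm i)) :=
    hli.comp _ (Fin.cast_injective _)
  have h4 : IsUnit (Matrix.of fun i : Fin n => f (Fin.cast hr.symm i)) :=
    Matrix.linearIndependent_rows_iff_isUnit.1 h2
  have h3 : (Matrix.of fun i j => v i (s (Fin.cast hr.symm j))) =
      (Matrix.of fun i : Fin n => f (Fin.cast hr.symm i)).transpose := by
    ext i j
    rw [Matrix.of_apply, Matrix.transpose_apply, Matrix.of_apply, ← hs, hw]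
  rw [h3, Matrix.det_transpose]
  exact ((Matrix.isUnit_iff_isUnit_det _).1 h4).ne_zero

/-- if at most two independent vectors are orthogonal to a set, the set contains `r + 1`
independent vectors -/
theorem many_indep {k σ : Type} [Field k] [Fintype σ] (r : ℕ) (hc : Fintype.card σ = r + 3)
    (A : Set (σ → k)) (hA : ∀ y : Fin 3 → σ → k, (∀ i, ∀ a ∈ A, ∑ j, a j * y i j = 0) →
      ¬ LinearIndependent k y) :
    ∃ v : Fin (r + 1) → σ → k, (∀ i, v i ∈ A) ∧ LinearIndependent k v := by
  classical
  obtain ⟨d, f, hf, hsp, hli⟩ : ∃ (d : ℕ) (f : Fin d → σ → k), (∀ i, f i ∈ A) ∧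
      Submodule.span k (Set.range f) = Submodule.span k A ∧ LinearIndependent k f := by
    obtain ⟨f, hf, hsp, hli⟩ := Submodule.exists_fun_fin_finrank_span_eq k A
    exact ⟨_, f, hf, hsp, hli⟩
  have hd : r + 1 ≤ d := by
    by_contra hlt
    set L : (σ → k) →ₗ[k] (Fin d → k) :=
      LinearMap.pi fun i => ∑ j, f i j • LinearMap.proj (R := k) j with hL
    have hLa : ∀ (y : σ → k) (i : Fin d), L y i = ∑ j, f i j * y j := by
      intro y i
      rw [hL, LinearMap.pi_apply, LinearMap.sum_apply]
      rfl
    have h1 := LinearMap.finrank_range_add_finrank_ker L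
    have h2 : Module.finrank k (LinearMap.range L) ≤ d := by
      refine (Submodule.finrank_le _).trans ?_
      rw [Module.finrank_fin_fun]
    rw [Module.finrank_fintype_fun_eq_card, hc] at h1
    have h3 : 3 ≤ Module.finrank k (LinearMap.ker L) := by omega
    obtain ⟨y, hy⟩ := exists_linearIndependent_of_le_finrank h3
    refine hA (fun i => (y i : σ → k)) (fun i a ha => ?_)
      (hy.map' (LinearMap.ker L).subtype (Submodule.ker_subtype _))
    have h4 : a ∈ Submodule.span k (Set.range f) := by
      rw [hsp]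
      exact Submodule.subset_span ha
    have h5 : ∀ b ∈ Submodule.span k (Set.range f), ∑ j, b j * (y i : σ → k) j = 0 := by
      intro b hb
      induction hb using Submodule.span_induction with
      | mem b hb =>
        obtain ⟨l, rfl⟩ := hb
        rw [← hLa]
        have h6 : L (y i : σ → k) = 0 := (y i).2
        rw [h6, Pi.zero_apply]
      | zero => simp
      | add b c _ _ hb hc =>
        rw [← add_zero (0 : k)]
        nth_rewrite 1 [← hb]
        rw [← hc, ← Finset.sum_add_distrib]
        refine Finset.sum_congr rfl fun j _ => ?_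
        rw [Pi.add_apply, add_mul]
      | smul c b _ hb =>
        have h7 : ∑ j, (c • b) j * (y i : σ → k) j = c * ∑ j, b j * (y i : σ → k) j := by
          rw [Finset.mul_sum]
          refine Finset.sum_congr rfl fun j _ => ?_
          rw [Pi.smul_apply, smul_eq_mul, mul_assoc]
        rw [h7, hb, mul_zero]
    exact h5 a h4
  exact ⟨fun i => f (Fin.castLE hd i), fun i => hf _, hli.comp _ (Fin.castLE_injective hd)⟩

/-- the gradient at the point `s` -/
noncomputable def gr {k σ : Type} [Field k] (s : σ → k) (f : MvPolynomial σ k) : σ → k :=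
  fun j => eval s (pderiv j f)

theorem pf_MNZ : T_MNZ := by
  classical
  intro k F σ _ _ _ _ _ X r hc hmin G hG s hs hsX hsG
  have hA : ∀ y : Fin 3 → σ → k, (∀ i, ∀ a ∈ {a : σ → k | ∃ f : MvPolynomial σ k,
      (aeval X f = 0 ∨ f = G) ∧ a = gr s f}, ∑ j, a j * y i j = 0) →
      ¬ LinearIndependent k y := by
    intro y hy
    exact hG s hs hsX hsG y (fun i f hf => hy i _ ⟨f, hf, rfl⟩)
  obtain ⟨v, hv, hli⟩ := many_indep r hc _ hA
  choose f hf hvf using hv
  have hdet : ∀ (g : Fin (r + 1) → MvPolynomial σ k) (q : Fin (r + 1) → σ),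
      eval s (Matrix.of fun i j => pderiv (q j) (g i)).det =
        (Matrix.of fun i j => gr s (g i) (q j)).det := by
    intro g q
    rw [RingHom.map_det]
    rfl
  by_cases hall : ∀ i, aeval X (f i) = 0
  · exfalso
    obtain ⟨q, hq⟩ := minor_ne v hli
    apply hq
    have h1 := hsX _ (hmin f hall q)
    rw [hdet] at h1
    have h2 : (Matrix.of fun i j => v i (q j)) = Matrix.of fun i j => gr s (f i) (q j) := by
      ext i j
      rw [Matrix.of_apply, Matrix.of_apply, hvf i]
    rw [h2, h1]
  · push Not at hall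
    obtain ⟨i₀, hi₀⟩ := hall
    have hG0 : f i₀ = G := (hf i₀).resolve_left hi₀
    have hoth : ∀ i, i ≠ i₀ → aeval X (f i) = 0 := by
      intro i hi
      rcases hf i with h | h
      · exact h
      · exfalso
        apply hi
        apply hli.injective
        rw [hvf i, hvf i₀, h, hG0]
    obtain ⟨e, he⟩ : ∃ e : Equiv.Perm (Fin (r + 1)), e = Equiv.swap i₀ (Fin.last r) := ⟨_, rfl⟩
    have hel : e (Fin.last r) = i₀ := by rw [he, Equiv.swap_apply_right]
    have hli' : LinearIndependent k (fun i => v (e i)) := hli.comp _ e.injective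
    obtain ⟨q, hq⟩ := minor_ne _ hli'
    refine ⟨fun i => f (e (Fin.castSucc i)), q, fun i => hoth _ ?_, ?_⟩
    · intro h
      have h1 : Fin.castSucc i = Fin.last r := e.injective (h.trans hel.symm)
      exact (Fin.castSucc_lt_last i).ne h1
    · have hsn : (Fin.snoc (fun i => f (e (Fin.castSucc i))) G :
          Fin (r + 1) → MvPolynomial σ k) = fun i => f (e i) := by
        funext i
        refine Fin.lastCases ?_ (fun j => ?_) i
        · rw [Fin.snoc_last, hel, hG0]
        · rw [Fin.snoc_castSucc]
      rw [hsn, hdet]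
      have h2 : (Matrix.of fun i j => gr s (f (e i)) (q j)) =
          Matrix.of fun i j => v (e i) (q j) := by
        ext i j
        rw [Matrix.of_apply, Matrix.of_apply, hvf (e i)]
      rw [h2]
      exact hq

end Pool.Agent.H94.SFG
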